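import Mathlib

/-!
# Project R10: a smooth partition of unity
-/

set_option autoImplicit false

namespace Pool.Agent.Y785.R10

open Finset Filter
open scoped ContDiff

noncomputable section

/-- the partition function -/
def om (x : ℝ) : ℂ := ((Real.smoothTransition (x + 1) - Real.smoothTransition x : ℝ) : ℂ)

theorem om_smooth : ContDiff ℝ ∞ om := by
  unfold om
  refine Complex.ofRealCLM.contDiff.comp ?_
  refine ContDiff.sub ?_ ?_
  · exact Real.smoothTransition.contDiff.comp (contDiff_id.add contDiff_const)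
  · exact Real.smoothTransition.contDiff

theorem om_zero {x : ℝ} (h : x ∉ Set.Icc (-1 : ℝ) 1) : om x = 0 := by
  unfold om
  rw [Set.mem_Icc, not_and_or, not_le, not_le] at h
  rcases h with h | h
  · rw [Real.smoothTransition.zero_of_nonpos (by linarith),
      Real.smoothTransition.zero_of_nonpos (by linarith)]
    simp
  · rw [Real.smoothTransition.one_of_one_le (by linarith),
      Real.smoothTransition.one_of_one_le (by linarith)]
    simp

theorem om_le (x : ℝ) : ‖om x‖ ≤ 1 := by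
  unfold om
  rw [Complex.norm_real, Real.norm_eq_abs, abs_le]
  have h1 := Real.smoothTransition.nonneg (x + 1)
  have h2 := Real.smoothTransition.nonneg x
  have h3 := Real.smoothTransition.le_one (x + 1)
  have h4 := Real.smoothTransition.le_one x
  constructor <;> linarith

theorem om_supp : HasCompactSupport om :=
  HasCompactSupport.intro isCompact_Icc fun _ hx => om_zero hx

theorem om_bound : ∃ D : ℝ, 0 < D ∧ (∀ x, ‖deriv om x‖ ≤ D) ∧ ∀ x, ‖deriv (deriv om) x‖ ≤ D := by
  have s1 : ContDiff ℝ ∞ (deriv om) := (contDiff_infty_iff_deriv.1 om_smooth).2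
  have s2 : ContDiff ℝ ∞ (deriv (deriv om)) := (contDiff_infty_iff_deriv.1 s1).2
  obtain ⟨D1, h1⟩ := s1.continuous.bounded_above_of_compact_support om_supp.deriv
  obtain ⟨D2, h2⟩ := s2.continuous.bounded_above_of_compact_support om_supp.deriv.deriv
  have h0 : 0 ≤ D1 := (norm_nonneg _).trans (h1 0)
  have h0' : 0 ≤ D2 := (norm_nonneg _).trans (h2 0)
  exact ⟨D1 + D2 + 1, by linarith, fun x => (h1 x).trans (by linarith),
    fun x => (h2 x).trans (by linarith)⟩

theorem om_sum (N : ℕ) (u : ℝ) (h0 : 0 ≤ u) (h1 : u + 1 ≤ N) :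
    ∑ i ∈ range N, om (u - i) = 1 := by
  have h : ∀ n : ℕ, ∑ i ∈ range n, om (u - i) =
      ((Real.smoothTransition (u + 1) - Real.smoothTransition (u + 1 - n) : ℝ) : ℂ) := by
    intro n
    induction n with
    | zero => simp
    | succ n ih =>
      rw [sum_range_succ, ih, om, ← Complex.ofReal_add]
      congr 1
      push_cast
      rw [show u - n + 1 = u + 1 - n by ring, show u + 1 - (n + 1) = u - (n : ℝ) by ring]
      ring
  rw [h, Real.smoothTransition.one_of_one_le (by linarith),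
    Real.smoothTransition.zero_of_nonpos (by linarith)]
  simp

/-- derivatives of the pieces -/
theorem piece {G : ℝ → ℂ} {B D : ℝ} (hG : ContDiff ℝ ∞ G) (b0 : ∀ v, ‖G v‖ ≤ B)
    (b1 : ∀ v, ‖deriv G v‖ ≤ B) (b2 : ∀ v, ‖deriv (deriv G) v‖ ≤ B) (hD : 0 < D)
    (d1 : ∀ x, ‖deriv om x‖ ≤ D) (d2 : ∀ x, ‖deriv (deriv om) x‖ ≤ D) {c : ℝ} (hc : 0 < c)
    (i : ℝ) :
    ContDiff ℝ ∞ (fun v => G v * om (c * v - i)) ∧
    (∀ v, ‖(fun v => G v * om (c * v - i)) v‖ ≤ B * (1 + 2 * c * D + c ^ 2 * D)) ∧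
    (∀ v, ‖deriv (fun v => G v * om (c * v - i)) v‖ ≤ B * (1 + 2 * c * D + c ^ 2 * D)) ∧
    ∀ v, ‖deriv (deriv (fun v => G v * om (c * v - i))) v‖ ≤
      B * (1 + 2 * c * D + c ^ 2 * D) := by
  have hB : 0 ≤ B := (norm_nonneg _).trans (b0 0)
  have g1 : ContDiff ℝ ∞ (deriv G) := (contDiff_infty_iff_deriv.1 hG).2
  have s1 : ContDiff ℝ ∞ (deriv om) := (contDiff_infty_iff_deriv.1 om_smooth).2
  have hlin : ∀ v : ℝ, HasDerivAt (fun v => c * v - i) c v := by
    intro v
    simpa using ((hasDerivAt_id v).const_mul c).sub_const i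
  have dG : ∀ v, HasDerivAt G (deriv G v) v := fun v =>
    ((contDiff_infty_iff_deriv.1 hG).1 v).hasDerivAt
  have dG' : ∀ v, HasDerivAt (deriv G) (deriv (deriv G) v) v := fun v =>
    ((contDiff_infty_iff_deriv.1 g1).1 v).hasDerivAt
  have dO : ∀ v, HasDerivAt (fun v => om (c * v - i)) ((c : ℂ) * deriv om (c * v - i)) v := by
    intro v
    have := (((contDiff_infty_iff_deriv.1 om_smooth).1 (c * v - i)).hasDerivAt).scomp v (hlin v)
    exact this
  have dO' : ∀ v, HasDerivAt (fun v => deriv om (c * v - i))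
      ((c : ℂ) * deriv (deriv om) (c * v - i)) v := by
    intro v
    have := (((contDiff_infty_iff_deriv.1 s1).1 (c * v - i)).hasDerivAt).scomp v (hlin v)
    exact this
  have e1 : deriv (fun v => G v * om (c * v - i)) =
      fun v => deriv G v * om (c * v - i) + G v * ((c : ℂ) * deriv om (c * v - i)) :=
    funext fun v => ((dG v).mul (dO v)).deriv
  have e2 : ∀ v, deriv (fun v => deriv G v * om (c * v - i) +
      G v * ((c : ℂ) * deriv om (c * v - i))) v =
      (deriv (deriv G) v * om (c * v - i) + deriv G v * ((c : ℂ) * deriv om (c * v - i))) +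
      (deriv G v * ((c : ℂ) * deriv om (c * v - i)) +
        G v * ((c : ℂ) * ((c : ℂ) * deriv (deriv om) (c * v - i)))) := fun v =>
    (((dG' v).mul (dO v)).add ((dG v).mul ((dO' v).const_mul (c : ℂ)))).deriv
  have hcn : ‖(c : ℂ)‖ = c := by rw [Complex.norm_real, Real.norm_eq_abs, abs_of_pos hc]
  have cD : 0 < c * D := mul_pos hc hD
  have ccD : 0 < c ^ 2 * D := by positivity
  have n1 : ∀ v, ‖(c : ℂ) * deriv om (c * v - i)‖ ≤ c * D := by
    intro v
    rw [norm_mul, hcn]
    exact mul_le_mul_of_nonneg_left (d1 _) hc.le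
  have n2 : ∀ v, ‖(c : ℂ) * ((c : ℂ) * deriv (deriv om) (c * v - i))‖ ≤ c ^ 2 * D := by
    intro v
    rw [norm_mul, norm_mul, hcn, pow_two, mul_assoc]
    exact mul_le_mul_of_nonneg_left (mul_le_mul_of_nonneg_left (d2 _) hc.le) hc.le
  have m0 : ∀ v, ‖G v * om (c * v - i)‖ ≤ B := by
    intro v
    rw [norm_mul]
    calc _ ≤ B * 1 := mul_le_mul (b0 v) (om_le _) (norm_nonneg _) hB
      _ = B := mul_one _
  refine ⟨hG.mul (om_smooth.comp ((contDiff_const.mul contDiff_id).sub contDiff_const)),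
    fun v => (m0 v).trans ?_, fun v => ?_, fun v => ?_⟩
  · nlinarith [mul_nonneg hB cD.le, mul_nonneg hB ccD.le]
  · rw [e1]
    refine (norm_add_le _ _).trans ?_
    rw [norm_mul, norm_mul]
    have a1 : ‖deriv G v‖ * ‖om (c * v - i)‖ ≤ B * 1 :=
      mul_le_mul (b1 v) (om_le _) (norm_nonneg _) hB
    have a2 : ‖G v‖ * ‖(c : ℂ) * deriv om (c * v - i)‖ ≤ B * (c * D) :=
      mul_le_mul (b0 v) (n1 v) (norm_nonneg _) hB
    nlinarith [mul_nonneg hB cD.le, mul_nonneg hB ccD.le]
  · rw [e1, e2]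
    refine (norm_add_le _ _).trans ((add_le_add (norm_add_le _ _) (norm_add_le _ _)).trans ?_)
    rw [norm_mul, norm_mul (deriv G v), norm_mul (G v)]
    have a1 : ‖deriv (deriv G) v‖ * ‖om (c * v - i)‖ ≤ B * 1 :=
      mul_le_mul (b2 v) (om_le _) (norm_nonneg _) hB
    have a2 : ‖deriv G v‖ * ‖(c : ℂ) * deriv om (c * v - i)‖ ≤ B * (c * D) :=
      mul_le_mul (b1 v) (n1 v) (norm_nonneg _) hB
    have a3 : ‖G v‖ * ‖(c : ℂ) * ((c : ℂ) * deriv (deriv om) (c * v - i))‖ ≤ B * (c ^ 2 * D) :=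
      mul_le_mul (b0 v) (n2 v) (norm_nonneg _) hB
    nlinarith [mul_nonneg hB cD.le, mul_nonneg hB ccD.le]

end

end Pool.Agent.Y785.R10
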